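import Mathlib

set_option autoImplicit false

/-!
# Two-dimensional simplicial complexes and edge paths

An edge path starting at a vertex `a` is recorded as the list of the vertices visited after `a`.
-/

namespace Pool.Agent.helper34.FJ2

/-- A simplicial complex of dimension at most two on the vertex set `V`. -/
structure Complex2 (V : Type) where
  /-- `edge a b`: the vertices `a` and `b` are distinct and joined by an edge -/
  edge : V → V → Prop
  /-- `tri a b c`: the vertices `a`, `b`, `c` are the three vertices of a triangle -/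
  tri : V → V → V → Prop
  edge_symm : ∀ a b, edge a b → edge b a
  edge_irrefl : ∀ a, ¬ edge a a
  tri_rot : ∀ a b c, tri a b c → tri b c a
  tri_swap : ∀ a b c, tri a b c → tri b a c
  tri_edge : ∀ a b c, tri a b c → edge a b

variable {V : Type}

/-- `IsPath X a l`: the vertices `a` followed by the members of `l` form an edge path -/
def IsPath (X : Complex2 V) : V → List V → Prop
  | _, [] => True
  | a, b :: l => X.edge a b ∧ IsPath X b l

/-- the last vertex of the edge path `a, l` -/
def endp : V → List V → V
  | a, [] => a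
  | _, b :: l => endp b l

/-- Homotopy of edge paths relative to their end points: the equivalence relation generated by
deleting a spur (`a, b, a` becomes `a` for an edge `a b`) and by pushing across a triangle
(`a, b, c` becomes `a, c` for a triangle `a b c`), anywhere in the path. -/
inductive Htpy (X : Complex2 V) : V → List V → List V → Prop
  | refl (a : V) (l : List V) : Htpy X a l l
  | symm (a : V) (l m : List V) : Htpy X a l m → Htpy X a m l
  | trans (a : V) (l m n : List V) : Htpy X a l m → Htpy X a m n → Htpy X a l n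
  | cons (a b : V) (l m : List V) : Htpy X b l m → Htpy X a (b :: l) (b :: m)
  | spur (a b : V) (l : List V) : X.edge a b → Htpy X a (b :: a :: l) l
  | tri (a b c : V) (l : List V) : X.tri a b c → Htpy X a (b :: c :: l) (c :: l)

/-- non-empty, connected, and every closed edge path is homotopic to the constant path -/
def SimplyConnected (X : Complex2 V) : Prop :=
  Nonempty V ∧ (∀ a b : V, ∃ l, IsPath X a l ∧ endp a l = b) ∧
    ∀ (a : V) (l : List V), IsPath X a l → endp a l = a → Htpy X a l []

namespace Complex2

theorem edge_ne (X : Complex2 V) {a b : V} (h : X.edge a b) : a ≠ b := by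
  rintro rfl
  exact X.edge_irrefl _ h

theorem tri_edge' (X : Complex2 V) {a b c : V} (h : X.tri a b c) : X.edge b c :=
  X.tri_edge _ _ _ (X.tri_rot _ _ _ h)

theorem tri_edge'' (X : Complex2 V) {a b c : V} (h : X.tri a b c) : X.edge a c :=
  X.edge_symm _ _ (X.tri_edge _ _ _ (X.tri_rot _ _ _ (X.tri_rot _ _ _ h)))

theorem tri_swap' (X : Complex2 V) {a b c : V} (h : X.tri a b c) : X.tri a c b :=
  X.tri_rot _ _ _ (X.tri_swap _ _ _ h)

end Complex2

/-! ## Paths -/

@[simp] theorem isPath_nil (X : Complex2 V) (a : V) : IsPath X a [] := trivial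

@[simp] theorem isPath_cons (X : Complex2 V) (a b : V) (l : List V) :
    IsPath X a (b :: l) ↔ X.edge a b ∧ IsPath X b l := Iff.rfl

@[simp] theorem endp_nil (a : V) : endp a [] = a := rfl

@[simp] theorem endp_cons (a b : V) (l : List V) : endp a (b :: l) = endp b l := rfl

@[simp] theorem endp_append (a : V) (l m : List V) : endp a (l ++ m) = endp (endp a l) m := by
  induction l generalizing a with
  | nil => rfl
  | cons b l ih => simp [ih]

@[simp] theorem isPath_append (X : Complex2 V) (a : V) (l m : List V) :
    IsPath X a (l ++ m) ↔ IsPath X a l ∧ IsPath X (endp a l) m := by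
  induction l generalizing a with
  | nil => simp
  | cons b l ih => simp [ih, and_assoc]

/-- the reversed path: if `l` is a path from `a` then `rev a l` is the reversed path, starting at
the end of `l` -/
def rev : V → List V → List V
  | _, [] => []
  | a, b :: l => rev b l ++ [a]

@[simp] theorem rev_nil (a : V) : rev a [] = [] := rfl

@[simp] theorem rev_cons (a b : V) (l : List V) : rev a (b :: l) = rev b l ++ [a] := rfl

theorem endp_rev (a : V) (l : List V) : endp (endp a l) (rev a l) = a := by
  induction l generalizing a with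
  | nil => rfl
  | cons b l ih => simp

theorem isPath_rev (X : Complex2 V) (a : V) (l : List V) (h : IsPath X a l) :
    IsPath X (endp a l) (rev a l) := by
  induction l generalizing a with
  | nil => trivial
  | cons b l ih =>
    simp only [endp_cons, rev_cons, isPath_append, isPath_cons, isPath_nil, and_true]
    refine ⟨ih b h.2, ?_⟩
    rw [endp_rev]
    exact X.edge_symm _ _ h.1

/-! ## Homotopies -/

theorem Htpy.endp_eq {X : Complex2 V} {a : V} {l m : List V} (h : Htpy X a l m) :
    endp a l = endp a m := by
  induction h with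
  | refl => rfl
  | symm _ _ _ _ ih => exact ih.symm
  | trans _ _ _ _ _ _ ih1 ih2 => exact ih1.trans ih2
  | cons _ _ _ _ _ ih => exact ih
  | spur => rfl
  | tri => rfl

theorem Htpy.isPath_iff {X : Complex2 V} {a : V} {l m : List V} (h : Htpy X a l m) :
    IsPath X a l ↔ IsPath X a m := by
  induction h with
  | refl => rfl
  | symm _ _ _ _ ih => exact ih.symm
  | trans _ _ _ _ _ _ ih1 ih2 => exact ih1.trans ih2
  | cons a b l m _ ih => simp [ih]
  | spur a b l h =>
    simp only [isPath_cons]
    exact ⟨fun h1 => h1.2.2, fun h1 => ⟨h, X.edge_symm _ _ h, h1⟩⟩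
  | tri a b c l h =>
    simp only [isPath_cons]
    exact ⟨fun h1 => ⟨X.tri_edge'' h, h1.2.2⟩, fun h1 => ⟨X.tri_edge _ _ _ h, X.tri_edge' h, h1.2⟩⟩

theorem Htpy.append_right {X : Complex2 V} {a : V} {l m : List V} (h : Htpy X a l m)
    (r : List V) : Htpy X a (l ++ r) (m ++ r) := by
  induction h with
  | refl => exact Htpy.refl _ _
  | symm _ _ _ _ ih => exact ih.symm
  | trans _ _ _ _ _ _ ih1 ih2 => exact ih1.trans _ _ _ _ ih2
  | cons _ _ _ _ _ ih => exact Htpy.cons _ _ _ _ ih
  | spur a b l h => exact Htpy.spur _ _ _ h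
  | tri a b c l h => exact Htpy.tri _ _ _ _ h

theorem Htpy.append_left {X : Complex2 V} {a : V} (p : List V) {l m : List V}
    (h : Htpy X (endp a p) l m) : Htpy X a (p ++ l) (p ++ m) := by
  induction p generalizing a with
  | nil => exact h
  | cons b p ih => exact Htpy.cons _ _ _ _ (ih h)

theorem htpy_rev (X : Complex2 V) (a : V) (l : List V) (h : IsPath X a l) :
    Htpy X a (l ++ rev a l) [] := by
  induction l generalizing a with
  | nil => exact Htpy.refl _ _
  | cons b l ih =>
    have h1 := (ih b h.2).append_right [a]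
    have h2 := Htpy.cons a b _ _ h1
    refine Htpy.trans _ _ _ _ (by simpa using h2) ?_
    exact Htpy.spur a b [] h.1

theorem rev_rev_aux (a : V) (l m : List V) : rev a (l ++ m) = rev (endp a l) m ++ rev a l := by
  induction l generalizing a with
  | nil => simp
  | cons b l ih => simp [ih]

theorem rev_rev (a : V) (l : List V) : rev (endp a l) (rev a l) = l := by
  induction l generalizing a with
  | nil => rfl
  | cons b l ih =>
    simp only [endp_cons, rev_cons, rev_rev_aux, rev_nil, List.nil_append, ih, endp_rev]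
    rfl

theorem htpy_rev' (X : Complex2 V) (a : V) (l : List V) (h : IsPath X a l) :
    Htpy X (endp a l) (rev a l ++ l) [] := by
  have h1 := htpy_rev X (endp a l) (rev a l) (isPath_rev X a l h)
  rwa [rev_rev] at h1

theorem Htpy.cancel_left {X : Complex2 V} {a : V} (p : List V) (hp : IsPath X a p) {l m : List V}
    (h : Htpy X a (p ++ l) (p ++ m)) : Htpy X (endp a p) l m := by
  have h1 : Htpy X (endp a p) (rev a p ++ (p ++ l)) (rev a p ++ (p ++ m)) :=
    Htpy.append_left _ (by rwa [endp_rev])
  rw [← List.append_assoc, ← List.append_assoc] at h1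
  have h2 := (htpy_rev' X a p hp).append_right l
  have h3 := (htpy_rev' X a p hp).append_right m
  exact (h2.symm.trans _ _ _ _ h1).trans _ _ _ _ h3

theorem Htpy.cancel_right {X : Complex2 V} {a : V} {l m : List V} (r : List V)
    (hl : endp a l = endp a m) (hr : IsPath X (endp a l) r)
    (h : Htpy X a (l ++ r) (m ++ r)) : Htpy X a l m := by
  have h1 := h.append_right (rev (endp a l) r)
  rw [List.append_assoc, List.append_assoc] at h1
  have h2 : Htpy X a (l ++ (r ++ rev (endp a l) r)) (l ++ []) :=
    Htpy.append_left l (htpy_rev X _ r hr)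
  have h3 : Htpy X a (m ++ (r ++ rev (endp a l) r)) (m ++ []) := by
    apply Htpy.append_left m
    rw [hl] at hr ⊢
    exact htpy_rev X _ r hr
  rw [List.append_nil] at h2 h3
  exact (h2.symm.trans _ _ _ _ h1).trans _ _ _ _ h3

/-! ## Subcomplexes -/

/-- `A ≤ B`: every edge and every triangle of `A` is one of `B` -/
instance : LE (Complex2 V) :=
  ⟨fun A B => (∀ a b, A.edge a b → B.edge a b) ∧ ∀ a b c, A.tri a b c → B.tri a b c⟩

theorem le_def {A B : Complex2 V} : A ≤ B ↔
    (∀ a b, A.edge a b → B.edge a b) ∧ ∀ a b c, A.tri a b c → B.tri a b c := Iff.rfl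

instance : Preorder (Complex2 V) where
  le_refl A := ⟨fun _ _ h => h, fun _ _ _ h => h⟩
  le_trans A B C h1 h2 := ⟨fun _ _ h => h2.1 _ _ (h1.1 _ _ h), fun _ _ _ h => h2.2 _ _ _ (h1.2 _ _ _ h)⟩

theorem IsPath.mono {A B : Complex2 V} (h : A ≤ B) {a : V} {l : List V} (hl : IsPath A a l) :
    IsPath B a l := by
  induction l generalizing a with
  | nil => trivial
  | cons b l ih => exact ⟨h.1 _ _ hl.1, ih hl.2⟩

theorem Htpy.mono {A B : Complex2 V} (h : A ≤ B) {a : V} {l m : List V} (hl : Htpy A a l m) :
    Htpy B a l m := by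
  induction hl with
  | refl => exact Htpy.refl _ _
  | symm _ _ _ _ ih => exact ih.symm
  | trans _ _ _ _ _ _ ih1 ih2 => exact ih1.trans _ _ _ _ ih2
  | cons _ _ _ _ _ ih => exact Htpy.cons _ _ _ _ ih
  | spur a b l h' => exact Htpy.spur _ _ _ (h.1 _ _ h')
  | tri a b c l h' => exact Htpy.tri _ _ _ _ (h.2 _ _ _ h')

/-- a homotopy uses finitely many edges and triangles -/
theorem Htpy.finite_support {X : Complex2 V} {a : V} {l m : List V} (h : Htpy X a l m) :
    ∃ (E : List (V × V)) (T : List (V × V × V)), (∀ e ∈ E, X.edge e.1 e.2) ∧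
      (∀ t ∈ T, X.tri t.1 t.2.1 t.2.2) ∧
      ∀ B : Complex2 V, (∀ e ∈ E, B.edge e.1 e.2) → (∀ t ∈ T, B.tri t.1 t.2.1 t.2.2) →
        Htpy B a l m := by
  induction h with
  | refl a l => exact ⟨[], [], by simp, by simp, fun B _ _ => Htpy.refl _ _⟩
  | symm _ _ _ _ ih =>
    obtain ⟨E, T, hE, hT, h⟩ := ih
    exact ⟨E, T, hE, hT, fun B h1 h2 => (h B h1 h2).symm⟩
  | trans _ _ _ _ _ _ ih1 ih2 =>
    obtain ⟨E, T, hE, hT, h⟩ := ih1
    obtain ⟨E', T', hE', hT', h'⟩ := ih2
    refine ⟨E ++ E', T ++ T', ?_, ?_, ?_⟩
    · intro e he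
      rcases List.mem_append.1 he with he | he
      exacts [hE e he, hE' e he]
    · intro e he
      rcases List.mem_append.1 he with he | he
      exacts [hT e he, hT' e he]
    · intro B h1 h2
      exact (h B (fun e he => h1 e (List.mem_append.2 (Or.inl he)))
        (fun e he => h2 e (List.mem_append.2 (Or.inl he)))).trans _ _ _ _
        (h' B (fun e he => h1 e (List.mem_append.2 (Or.inr he)))
        (fun e he => h2 e (List.mem_append.2 (Or.inr he))))
  | cons _ _ _ _ _ ih =>
    obtain ⟨E, T, hE, hT, h⟩ := ih
    exact ⟨E, T, hE, hT, fun B h1 h2 => Htpy.cons _ _ _ _ (h B h1 h2)⟩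
  | spur a b l h' =>
    exact ⟨[(a, b)], [], by simpa using h', by simp, fun B h1 _ => Htpy.spur _ _ _ (by simpa using h1)⟩
  | tri a b c l h' =>
    exact ⟨[], [(a, b, c)], by simp, by simpa using h', fun B _ h1 => Htpy.tri _ _ _ _ (by simpa using h1)⟩

/-- a path uses finitely many edges -/
theorem IsPath.finite_support {X : Complex2 V} {a : V} {l : List V} (h : IsPath X a l) :
    ∃ E : List (V × V), (∀ e ∈ E, X.edge e.1 e.2) ∧
      ∀ B : Complex2 V, (∀ e ∈ E, B.edge e.1 e.2) → IsPath B a l := by
  induction l generalizing a with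
  | nil => exact ⟨[], by simp, fun B _ => trivial⟩
  | cons b l ih =>
    obtain ⟨E, hE, h'⟩ := ih h.2
    refine ⟨(a, b) :: E, ?_, ?_⟩
    · intro e he
      rcases List.mem_cons.1 he with rfl | he
      exacts [h.1, hE e he]
    · intro B hB
      exact ⟨hB _ List.mem_cons_self, h' B fun e he => hB e (List.mem_cons_of_mem _ he)⟩

end Pool.Agent.helper34.FJ2
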