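import Pool.Agent.helper34.FJ2.Complex

set_option autoImplicit false

/-!
# The universal covering of a two-dimensional complex and the group of lifts
-/

namespace Pool.Agent.helper34.FJ2

variable {V : Type} {G : Type} [Group G] [MulAction G V]

/-- the group acts by automorphisms of the complex -/
structure Inv (G : Type) {V : Type} [Group G] [MulAction G V] (X : Complex2 V) : Prop where
  edge : ∀ (g : G) (a b : V), X.edge a b → X.edge (g • a) (g • b)
  tri : ∀ (g : G) (a b c : V), X.tri a b c → X.tri (g • a) (g • b) (g • c)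

theorem endp_map (g : G) (a : V) (l : List V) :
    endp (g • a) (l.map (g • ·)) = g • endp a l := by
  induction l generalizing a with
  | nil => rfl
  | cons b l ih => simp [ih]

theorem Inv.isPath {X : Complex2 V} (hX : Inv G X) (g : G) {a : V} {l : List V}
    (h : IsPath X a l) : IsPath X (g • a) (l.map (g • ·)) := by
  induction l generalizing a with
  | nil => trivial
  | cons b l ih => exact ⟨hX.edge _ _ _ h.1, ih h.2⟩

theorem Inv.htpy {X : Complex2 V} (hX : Inv G X) (g : G) {a : V} {l m : List V}
    (h : Htpy X a l m) : Htpy X (g • a) (l.map (g • ·)) (m.map (g • ·)) := by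
  induction h with
  | refl => exact Htpy.refl _ _
  | symm _ _ _ _ ih => exact ih.symm
  | trans _ _ _ _ _ _ ih1 ih2 => exact ih1.trans _ _ _ _ ih2
  | cons _ _ _ _ _ ih => exact Htpy.cons _ _ _ _ ih
  | spur a b l h' => exact Htpy.spur _ _ _ (hX.edge _ _ _ h')
  | tri a b c l h' => exact Htpy.tri _ _ _ _ (hX.tri _ _ _ _ h')

/-- homotopy of lists relative to the base vertex -/
def hSetoid (A : Complex2 V) (x : V) : Setoid (List V) where
  r := Htpy A x
  iseqv := ⟨Htpy.refl x, fun h => h.symm, fun h1 h2 => h1.trans _ _ _ _ h2⟩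

/-- homotopy classes of lists -/
def PClass (A : Complex2 V) (x : V) : Type := Quotient (hSetoid A x)

namespace PClass

variable {A : Complex2 V} {x : V}

/-- the class of a list -/
def mk (A : Complex2 V) (x : V) (l : List V) : PClass A x := Quotient.mk (hSetoid A x) l

theorem mk_eq {l m : List V} : mk A x l = mk A x m ↔ Htpy A x l m := by
  refine ⟨fun h => Quotient.exact h, fun h => Quotient.sound h⟩

theorem ind {p : PClass A x → Prop} (h : ∀ l, p (mk A x l)) (q : PClass A x) : p q :=
  Quotient.ind h q

/-- the end point -/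
def ep (q : PClass A x) : V :=
  Quotient.lift (s := hSetoid A x) (endp x)
    (fun l m h => Htpy.endp_eq (X := A) (show Htpy A x l m from h)) q

@[simp] theorem ep_mk (l : List V) : (mk A x l).ep = endp x l := rfl

/-- classes of edge paths of `A` -/
def valid (q : PClass A x) : Prop :=
  Quotient.lift (s := hSetoid A x) (IsPath A x)
    (fun l m h => propext (Htpy.isPath_iff (show Htpy A x l m from h))) q

@[simp] theorem valid_mk (l : List V) : (mk A x l).valid ↔ IsPath A x l := Iff.rfl

/-- append a list -/
def app (q : PClass A x) (m : List V) : PClass A x :=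
  Quotient.map (sa := hSetoid A x) (sb := hSetoid A x) (· ++ m)
    (fun l l' h => Htpy.append_right (show Htpy A x l l' from h) m) q

@[simp] theorem app_mk (l m : List V) : (mk A x l).app m = mk A x (l ++ m) := rfl

@[simp] theorem app_nil (q : PClass A x) : q.app [] = q := by
  induction q using PClass.ind with
  | h l => simp

@[simp] theorem app_app (q : PClass A x) (m n : List V) : (q.app m).app n = q.app (m ++ n) := by
  induction q using PClass.ind with
  | h l => simp

@[simp] theorem ep_app (q : PClass A x) (m : List V) : (q.app m).ep = endp q.ep m := by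
  induction q using PClass.ind with
  | h l => simp

theorem valid_app (q : PClass A x) (m : List V) :
    (q.app m).valid ↔ q.valid ∧ IsPath A q.ep m := by
  induction q using PClass.ind with
  | h l => simp

theorem app_congr (q : PClass A x) {m n : List V} (h : Htpy A q.ep m n) : q.app m = q.app n := by
  induction q using PClass.ind with
  | h l => exact mk_eq.2 (Htpy.append_left l h)

theorem app_cancel (q : PClass A x) (hq : q.valid) {m n : List V} (h : q.app m = q.app n) :
    Htpy A q.ep m n := by
  induction q using PClass.ind with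
  | h l => exact Htpy.cancel_left l hq (mk_eq.1 h)

end PClass

/-- the vertices of the universal covering: classes of edge paths from the base vertex -/
def Cov (A : Complex2 V) (x : V) : Type := {q : PClass A x // q.valid}

namespace Cov

variable {A : Complex2 V} {x : V}

/-- the projection to the base -/
def ep (q : Cov A x) : V := q.1.ep

/-- the base point -/
def base (A : Complex2 V) (x : V) : Cov A x := ⟨PClass.mk A x [], trivial⟩

/-- move along a path -/
def go (q : Cov A x) (l : List V) (hl : IsPath A q.ep l) : Cov A x :=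
  ⟨q.1.app l, (PClass.valid_app _ _).2 ⟨q.2, hl⟩⟩

/-- the universal covering -/
def complex (A : Complex2 V) (x : V) : Complex2 (Cov A x) where
  edge q r := A.edge q.ep r.ep ∧ r.1 = q.1.app [r.ep]
  tri q r s := A.tri q.ep r.ep s.ep ∧ r.1 = q.1.app [r.ep] ∧ s.1 = q.1.app [s.ep]
  edge_symm q r h := by
    refine ⟨A.edge_symm _ _ h.1, ?_⟩
    rw [h.2, PClass.app_app]
    conv_lhs => rw [← PClass.app_nil q.1]
    exact PClass.app_congr _ (Htpy.spur _ _ _ h.1).symm
  edge_irrefl q h := A.edge_irrefl _ h.1
  tri_rot q r s h := by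
    refine ⟨A.tri_rot _ _ _ h.1, ?_, ?_⟩
    · rw [h.2.1, PClass.app_app, h.2.2]
      exact PClass.app_congr _ (Htpy.tri _ _ _ _ h.1).symm
    · rw [h.2.1, PClass.app_app]
      conv_lhs => rw [← PClass.app_nil q.1]
      exact PClass.app_congr _ (Htpy.spur _ _ _ (A.tri_edge _ _ _ h.1)).symm
  tri_swap q r s h := by
    refine ⟨A.tri_swap _ _ _ h.1, ?_, ?_⟩
    · rw [h.2.1, PClass.app_app]
      conv_lhs => rw [← PClass.app_nil q.1]
      exact PClass.app_congr _ (Htpy.spur _ _ _ (A.tri_edge _ _ _ h.1)).symm
    · rw [h.2.1, PClass.app_app, h.2.2]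
      exact PClass.app_congr _ (Htpy.tri _ _ _ _ h.1).symm
  tri_edge q r s h := ⟨A.tri_edge _ _ _ h.1, h.2.1⟩

theorem ext_ep {q r s : Cov A x} (h1 : (complex A x).edge q r) (h2 : (complex A x).edge q s)
    (h : r.ep = s.ep) : r = s := by
  apply Subtype.ext
  rw [h1.2, h2.2, h]

/-- the lift of a path -/
def lift (q : Cov A x) : (l : List V) → IsPath A q.ep l → List (Cov A x)
  | [], _ => []
  | b :: l, h =>
    let r : Cov A x := q.go [b] ⟨h.1, trivial⟩
    r :: lift r l (by
      have : r.ep = b := by
        change (q.1.app [b]).ep = b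
        rw [PClass.ep_app]
        rfl
      rw [this]
      exact h.2)

theorem lift_congr {q r : Cov A x} (h : q = r) (l : List V) (hl : IsPath A q.ep l) :
    lift q l hl = lift r l (h ▸ hl) := by
  subst h
  rfl

theorem cons_lift_congr {q r : Cov A x} (h : q = r) (l : List V) (hl : IsPath A q.ep l)
    (hr : IsPath A r.ep l) : q :: lift q l hl = r :: lift r l hr := by
  subst h
  rfl

theorem ep_go (q : Cov A x) (l : List V) (hl : IsPath A q.ep l) : (q.go l hl).ep = endp q.ep l :=
  PClass.ep_app _ _

theorem edge_go (q : Cov A x) (b : V) (h : A.edge q.ep b) :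
    (complex A x).edge q (q.go [b] ⟨h, trivial⟩) := by
  have : (q.go [b] ⟨h, trivial⟩).ep = b := ep_go _ _ _
  refine ⟨by rw [this]; exact h, ?_⟩
  rw [this]
  rfl

theorem endp_lift (q : Cov A x) (l : List V) (hl : IsPath A q.ep l) :
    endp q (lift q l hl) = q.go l hl := by
  induction l generalizing q with
  | nil =>
    apply Subtype.ext
    exact (PClass.app_nil q.1).symm
  | cons b l ih =>
    rw [lift, endp_cons, ih]
    apply Subtype.ext
    exact PClass.app_app q.1 [b] l

theorem isPath_lift (q : Cov A x) (l : List V) (hl : IsPath A q.ep l) :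
    IsPath (complex A x) q (lift q l hl) := by
  induction l generalizing q with
  | nil => trivial
  | cons b l ih => exact ⟨edge_go q b hl.1, ih _ _⟩

theorem eq_lift (q : Cov A x) (L : List (Cov A x)) (hL : IsPath (complex A x) q L) :
    ∃ hl : IsPath A q.ep (L.map ep), L = lift q (L.map ep) hl := by
  induction L generalizing q with
  | nil => exact ⟨trivial, rfl⟩
  | cons r L ih =>
    obtain ⟨h1, h2⟩ := hL
    obtain ⟨h3, h4⟩ := ih r h2
    refine ⟨⟨h1.1, h3⟩, ?_⟩
    have h5 : r = q.go [r.ep] ⟨h1.1, trivial⟩ := Subtype.ext h1.2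
    simp only [List.map_cons, lift]
    rw [← lift_congr h5 (L.map ep) h3, ← h4, ← h5]

theorem htpy_lift {a : V} {l m : List V} (h : Htpy A a l m) (q : Cov A x) (hq : q.ep = a)
    (hl : IsPath A q.ep l) (hm : IsPath A q.ep m) :
    Htpy (complex A x) q (lift q l hl) (lift q m hm) := by
  induction h generalizing q with
  | refl => exact Htpy.refl _ _
  | symm _ _ _ _ ih => exact (ih q hq hm hl).symm
  | trans a l m n h1 h2 ih1 ih2 =>
    subst hq
    have h3 : IsPath A q.ep m := (Htpy.isPath_iff h1).1 hl
    exact (ih1 q rfl hl h3).trans _ _ _ _ (ih2 q rfl h3 hm)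
  | cons a b l m h ih =>
    subst hq
    refine Htpy.cons _ _ _ _ (ih _ (ep_go _ _ _) _ _)
  | spur a b l h =>
    subst hq
    simp only [lift]
    have h1 : (q.go [b] ⟨h, trivial⟩).ep = b := ep_go _ _ _
    have h2 : q = (q.go [b] ⟨h, trivial⟩).go [q.ep] ⟨by rw [h1]; exact A.edge_symm _ _ h, trivial⟩ := by
      apply Subtype.ext
      change q.1 = (q.1.app [b]).app [q.ep]
      rw [PClass.app_app]
      conv_lhs => rw [← PClass.app_nil q.1]
      exact PClass.app_congr _ (Htpy.spur _ _ _ h).symm
    have h3 := Htpy.spur (X := complex A x) q (q.go [b] ⟨h, trivial⟩) (lift q l hm) (edge_go q b h)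
    convert h3 using 2
    exact (cons_lift_congr h2 l hm _).symm
  | tri a b c l h =>
    subst hq
    simp only [lift]
    have hb := A.tri_edge _ _ _ h
    have hc := A.tri_edge'' h
    have hbc := A.tri_edge' h
    have h1 : (q.go [b] ⟨hb, trivial⟩).ep = b := ep_go _ _ _
    have h1' : (q.go [c] ⟨hc, trivial⟩).ep = c := ep_go _ _ _
    have h2 : q.go [c] ⟨hc, trivial⟩ =
        (q.go [b] ⟨hb, trivial⟩).go [c] ⟨by rw [h1]; exact hbc, trivial⟩ := by
      apply Subtype.ext
      change q.1.app [c] = (q.1.app [b]).app [c]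
      rw [PClass.app_app]
      exact PClass.app_congr _ (Htpy.tri _ _ _ _ h).symm
    have h4 : (complex A x).tri q (q.go [b] ⟨hb, trivial⟩) (q.go [c] ⟨hc, trivial⟩) := by
      refine ⟨by rw [h1, h1']; exact h, ?_, ?_⟩
      · rw [h1]; rfl
      · rw [h1']; rfl
    have h3 := Htpy.tri (X := complex A x) q _ _
      (lift (q.go [c] ⟨hc, trivial⟩) l (by rw [h1']; exact hm.2)) h4
    convert h3 using 2
    exact (cons_lift_congr h2 l _ _).symm

theorem simplyConnected (A : Complex2 V) (x : V) : SimplyConnected (complex A x) := by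
  have key : ∀ q : Cov A x, ∃ L, IsPath (complex A x) (base A x) L ∧ endp (base A x) L = q := by
    rintro ⟨q, hq⟩
    induction q using PClass.ind with
    | h l =>
      have hq' : IsPath A (base A x).ep l := hq
      refine ⟨lift (base A x) l hq', isPath_lift _ _ _, ?_⟩
      rw [endp_lift]
      rfl
  refine ⟨⟨base A x⟩, ?_, ?_⟩
  · intro q r
    obtain ⟨L, hL, hL'⟩ := key q
    obtain ⟨M, hM, hM'⟩ := key r
    refine ⟨rev (base A x) L ++ M, ?_, ?_⟩
    · rw [isPath_append]
      constructor
      · rw [← hL']
        exact isPath_rev _ _ _ hL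
      · rw [← hL', endp_rev]
        exact hM
    · rw [endp_append, ← hL', endp_rev]
      exact hM'
  · intro q L hL hq
    obtain ⟨h1, h2⟩ := eq_lift q L hL
    rw [h2] at hq ⊢
    rw [endp_lift] at hq
    have h3 : q.1.app (L.map ep) = q.1.app [] := by
      rw [PClass.app_nil]
      exact congrArg Subtype.val hq
    have h4 := PClass.app_cancel _ q.2 h3
    exact htpy_lift h4 q rfl h1 trivial

end Cov

end Pool.Agent.helper34.FJ2
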