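import Pool.Agent.helper34.FJ2.Cover

set_option autoImplicit false

/-!
# The group of all lifts of a group action to the universal covering
-/

namespace Pool.Agent.helper34.FJ2

/-- an invariant complex on the `G`-set `V` -/
structure GCx (G : Type) (V : Type) [Group G] [MulAction G V] where
  toC : Complex2 V
  inv : Inv G toC

variable {V : Type} {G : Type} [Group G] [MulAction G V]

/-- a group element `g` with an edge path from the base vertex `x` to `g • x` -/
structure PreLift (A : GCx G V) (x : V) where
  g : G
  l : List V
  path : IsPath A.toC x l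
  fin : endp x l = g • x

namespace PreLift

variable {A : GCx G V} {x : V}

theorem ext' {p q : PreLift A x} (h1 : p.g = q.g) (h2 : p.l = q.l) : p = q := by
  cases p
  cases q
  subst h1
  subst h2
  rfl

instance : Monoid (PreLift A x) where
  mul p q := ⟨p.g * q.g, p.l ++ q.l.map (p.g • ·), by
    rw [isPath_append]
    refine ⟨p.path, ?_⟩
    rw [p.fin]
    exact A.inv.isPath _ q.path, by
    rw [endp_append, p.fin, endp_map, q.fin, mul_smul]⟩
  one := ⟨1, [], trivial, (one_smul G x).symm⟩
  mul_assoc p q r := ext' (mul_assoc _ _ _) (by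
    change (p.l ++ q.l.map (p.g • ·)) ++ r.l.map ((p.g * q.g) • ·) =
      p.l ++ (q.l ++ r.l.map (q.g • ·)).map (p.g • ·)
    simp [mul_smul])
  one_mul p := ext' (one_mul _) (by
    change [] ++ p.l.map ((1 : G) • ·) = p.l
    simp)
  mul_one p := ext' (mul_one _) (by
    change p.l ++ [].map (p.g • ·) = p.l
    simp)

@[simp] theorem mul_g (p q : PreLift A x) : (p * q).g = p.g * q.g := rfl

@[simp] theorem mul_l (p q : PreLift A x) : (p * q).l = p.l ++ q.l.map (p.g • ·) := rfl

@[simp] theorem one_g : (1 : PreLift A x).g = 1 := rfl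

@[simp] theorem one_l : (1 : PreLift A x).l = [] := rfl

end PreLift

/-- equality in the group and homotopy of the paths -/
def liftCon (A : GCx G V) (x : V) : Con (PreLift A x) where
  r p q := p.g = q.g ∧ Htpy A.toC x p.l q.l
  iseqv := ⟨fun _ => ⟨rfl, Htpy.refl _ _⟩, fun h => ⟨h.1.symm, h.2.symm⟩,
    fun h1 h2 => ⟨h1.1.trans h2.1, h1.2.trans _ _ _ _ h2.2⟩⟩
  mul' := by
    rintro p p' q q' ⟨h1, h2⟩ ⟨h3, h4⟩
    refine ⟨by simp [h1, h3], ?_⟩
    simp only [PreLift.mul_l]
    refine (h2.append_right _).trans _ _ _ _ ?_
    apply Htpy.append_left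
    rw [p'.fin, h1]
    exact A.inv.htpy _ h4

/-- the group of lifts -/
def Lifts (A : GCx G V) (x : V) : Type := (liftCon A x).Quotient

namespace Lifts

variable {A : GCx G V} {x : V}

noncomputable instance : Monoid (Lifts A x) := inferInstanceAs (Monoid (liftCon A x).Quotient)

/-- the class of a lift -/
def mk (p : PreLift A x) : Lifts A x := ((p : PreLift A x) : (liftCon A x).Quotient)

theorem mk_mul (p q : PreLift A x) : mk (p * q) = mk p * mk q := rfl

theorem mk_one : mk (1 : PreLift A x) = 1 := rfl

theorem mk_eq {p q : PreLift A x} : mk p = mk q ↔ p.g = q.g ∧ Htpy A.toC x p.l q.l :=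
  (liftCon A x).eq

theorem ind {P : Lifts A x → Prop} (h : ∀ p, P (mk p)) (q : Lifts A x) : P q :=
  Quotient.ind h q

/-- the inverse path -/
def preInv (p : PreLift A x) : PreLift A x :=
  ⟨p.g⁻¹, (rev x p.l).map (p.g⁻¹ • ·), by
    have h1 := isPath_rev A.toC x p.l p.path
    rw [p.fin] at h1
    have h2 := A.inv.isPath p.g⁻¹ h1
    rwa [inv_smul_smul] at h2, by
    have h1 := endp_rev x p.l
    rw [p.fin] at h1
    have h2 := endp_map p.g⁻¹ (p.g • x) (rev x p.l)
    rw [inv_smul_smul, h1] at h2
    exact h2⟩

theorem preInv_mul (p : PreLift A x) : mk (preInv p) * mk p = 1 := by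
  rw [← mk_mul, ← mk_one, mk_eq]
  refine ⟨by simp [preInv], ?_⟩
  simp only [PreLift.mul_l, preInv, PreLift.one_l, ← List.map_append]
  have h1 := htpy_rev' A.toC x p.l p.path
  rw [p.fin] at h1
  have h2 := A.inv.htpy p.g⁻¹ h1
  rw [inv_smul_smul] at h2
  simpa using h2

noncomputable instance : Group (Lifts A x) :=
  { (inferInstance : Monoid (Lifts A x)) with
    inv := fun q => Classical.choose (show ∃ r : Lifts A x, r * q = 1 from
      ind (P := fun q => ∃ r : Lifts A x, r * q = 1) (fun p => ⟨mk (preInv p), preInv_mul p⟩) q)
    inv_mul_cancel := fun q => Classical.choose_spec (show ∃ r : Lifts A x, r * q = 1 from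
      ind (P := fun q => ∃ r : Lifts A x, r * q = 1) (fun p => ⟨mk (preInv p), preInv_mul p⟩) q) }

/-- the projection to `G` -/
noncomputable def proj (A : GCx G V) (x : V) : Lifts A x →* G :=
  (liftCon A x).lift ⟨⟨fun p => p.g, rfl⟩, fun _ _ => rfl⟩ (fun _ _ h => h.1)

@[simp] theorem proj_mk (p : PreLift A x) : proj A x (mk p) = p.g := rfl

/-- the action of a lift on classes of paths -/
def actP (p : PreLift A x) (q : PClass A.toC x) : PClass A.toC x :=
  Quotient.map (sa := hSetoid A.toC x) (sb := hSetoid A.toC x)
    (fun m => p.l ++ m.map (p.g • ·))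
    (fun m m' h => by
      apply Htpy.append_left
      rw [p.fin]
      exact A.inv.htpy _ (show Htpy A.toC x m m' from h)) q

@[simp] theorem actP_mk (p : PreLift A x) (m : List V) :
    actP p (PClass.mk A.toC x m) = PClass.mk A.toC x (p.l ++ m.map (p.g • ·)) := rfl

theorem actP_congr {p p' : PreLift A x} (h : p.g = p'.g ∧ Htpy A.toC x p.l p'.l)
    (q : PClass A.toC x) : actP p q = actP p' q := by
  induction q using PClass.ind with
  | h m =>
    rw [actP_mk, actP_mk, PClass.mk_eq, h.1]
    exact h.2.append_right _

theorem ep_actP (p : PreLift A x) (q : PClass A.toC x) : (actP p q).ep = p.g • q.ep := by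
  induction q using PClass.ind with
  | h m =>
    rw [actP_mk, PClass.ep_mk, endp_append, p.fin, endp_map]
    rfl

theorem actP_app (p : PreLift A x) (q : PClass A.toC x) (m : List V) :
    actP p (q.app m) = (actP p q).app (m.map (p.g • ·)) := by
  induction q using PClass.ind with
  | h l => simp

theorem valid_actP (p : PreLift A x) (q : PClass A.toC x) (hq : q.valid) : (actP p q).valid := by
  induction q using PClass.ind with
  | h m =>
    rw [actP_mk, PClass.valid_mk, isPath_append]
    refine ⟨p.path, ?_⟩
    rw [p.fin]
    exact A.inv.isPath _ hq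

/-- the action on the universal covering, as a function -/
noncomputable def act (p : Lifts A x) (q : Cov A.toC x) : Cov A.toC x :=
  Quotient.lift (s := (liftCon A x).toSetoid)
    (fun p : PreLift A x => (⟨actP p q.1, valid_actP p q.1 q.2⟩ : Cov A.toC x))
    (fun _ _ h => Subtype.ext (actP_congr h q.1)) p

theorem act_mk (p : PreLift A x) (q : Cov A.toC x) : (act (mk p) q).1 = actP p q.1 := rfl

noncomputable instance : MulAction (Lifts A x) (Cov A.toC x) where
  smul := act
  one_smul q := by
    apply Subtype.ext
    change actP 1 q.1 = q.1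
    generalize q.1 = r
    induction r using PClass.ind with
    | h m => simp
  mul_smul p p' q := by
    induction p using ind with
    | h p =>
      induction p' using ind with
      | h p' =>
        apply Subtype.ext
        change actP (p * p') q.1 = actP p (actP p' q.1)
        generalize q.1 = r
        induction r using PClass.ind with
        | h m =>
          simp only [actP_mk, PreLift.mul_l, PreLift.mul_g, List.map_append, List.append_assoc,
            List.map_map, mul_smul]
          rfl

theorem smul_def (p : PreLift A x) (q : Cov A.toC x) : (mk p • q).1 = actP p q.1 := rfl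

theorem ep_smul (p : Lifts A x) (q : Cov A.toC x) : (p • q).ep = proj A x p • q.ep := by
  induction p using ind with
  | h p => exact ep_actP p q.1

theorem smul_app (p : Lifts A x) (q : Cov A.toC x) (m : List V) (r : Cov A.toC x)
    (h : r.1 = q.1.app m) : (p • r).1 = (p • q).1.app (m.map (proj A x p • ·)) := by
  induction p using ind with
  | h p =>
    rw [smul_def, smul_def, h, actP_app]
    rfl

theorem inv_cover : Inv (Lifts A x) (Cov.complex A.toC x) where
  edge p q r h := by
    refine ⟨?_, ?_⟩
    · rw [ep_smul, ep_smul]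
      exact A.inv.edge _ _ _ h.1
    · rw [smul_app p q [r.ep] r h.2, ep_smul]
      rfl
  tri p q r s h := by
    refine ⟨?_, ?_, ?_⟩
    · rw [ep_smul, ep_smul, ep_smul]
      exact A.inv.tri _ _ _ _ h.1
    · rw [smul_app p q [r.ep] r h.2.1, ep_smul]
      rfl
    · rw [smul_app p q [s.ep] s h.2.2, ep_smul]
      rfl

/-- the stabilisers of the action on the covering inject into stabilisers in `G` -/
theorem stab_inj (q : Cov A.toC x) (p p' : Lifts A x) (h : p • q = q) (h' : p' • q = q)
    (hp : proj A x p = proj A x p') : p = p' := by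
  induction p using ind with
  | h p =>
    induction p' using ind with
    | h p' =>
      rw [mk_eq]
      refine ⟨hp, ?_⟩
      obtain ⟨q, hq⟩ := q
      induction q using PClass.ind with
      | h m =>
        have h1 : actP p (PClass.mk A.toC x m) = actP p' (PClass.mk A.toC x m) :=
          (congrArg Subtype.val h).trans (congrArg Subtype.val h').symm
        rw [actP_mk, actP_mk, PClass.mk_eq] at h1
        have hg : p.g = p'.g := hp
        rw [hg] at h1
        refine Htpy.cancel_right _ ?_ ?_ h1
        · rw [p.fin, p'.fin, hg]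
        · rw [p.fin, hg]
          exact A.inv.isPath _ hq

theorem stab_finite (hfin : ∀ v : V, (MulAction.stabilizer G v : Set G).Finite)
    (q : Cov A.toC x) : (MulAction.stabilizer (Lifts A x) q : Set (Lifts A x)).Finite := by
  refine Set.Finite.of_injOn (f := proj A x) (t := (MulAction.stabilizer G q.ep : Set G)) ?_ ?_
    (hfin q.ep)
  · intro p hp
    have hp' : p • q = q := hp
    change proj A x p • q.ep = q.ep
    rw [← ep_smul, hp']
  · intro p hp p' hp' h
    exact stab_inj q p p' hp hp' h

/-- transitivity on fibres -/
theorem exists_smul (q r : Cov A.toC x) (g : G) (h : r.ep = g • q.ep)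
    : ∃ p : Lifts A x, proj A x p = g ∧ p • q = r := by
  obtain ⟨q, hq⟩ := q
  obtain ⟨r, hr⟩ := r
  induction q using PClass.ind with
  | h l =>
    induction r using PClass.ind with
    | h m =>
      have h' : endp x m = g • endp x l := h
      have h1 := isPath_rev A.toC x l hq
      have h2 := A.inv.isPath g h1
      refine ⟨mk ⟨g, m ++ (rev x l).map (g • ·), ?_, ?_⟩, rfl, ?_⟩
      · rw [isPath_append, h']
        exact ⟨hr, h2⟩
      · rw [endp_append, h', endp_map, endp_rev]
      · apply Subtype.ext
        change PClass.mk A.toC x ((m ++ (rev x l).map (g • ·)) ++ l.map (g • ·)) =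
          PClass.mk A.toC x m
        rw [PClass.mk_eq, List.append_assoc, ← List.map_append]
        conv_rhs => rw [← List.append_nil m]
        apply Htpy.append_left
        rw [h']
        have h3 := A.inv.htpy g (htpy_rev' A.toC x l hq)
        simpa using h3

end Lifts

end Pool.Agent.helper34.FJ2
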