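import Pool.Agent.helper34.FJ2.Metric

set_option autoImplicit false
set_option linter.unusedVariables false

/-!
# Proper actions on 2-dimensional CAT(0) complexes are directed colimits of geometric actions
-/

namespace Pool.Agent.helper34.FJ2

/-- closure properties of a class of groups -/
structure Closed2 (P : ∀ (G : Type) [Group G], Prop) : Prop where
  cat : ∀ (G V : Type) [Group G] [MulAction G V] (X : Complex2 V) (len : V → V → ℝ),
    SimplyConnected X → NPC X len → ActsProperly G X len → Cocompact G X → P G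
  colim : ∀ (ι : Type) [Preorder ι] [Nonempty ι] [IsDirectedOrder ι]
    (G : ι → Type) [∀ i, Group (G i)] (f : ∀ i j, i ≤ j → G i →* G j)
    (L : Type) [Group L] (φ : ∀ i, G i →* L),
    (∀ i x, f i i le_rfl x = x) →
    (∀ i j k (hij : i ≤ j) (hjk : j ≤ k) x, f j k hjk (f i j hij x) = f i k (hij.trans hjk) x) →
    (∀ i j (h : i ≤ j) x, φ j (f i j h x) = φ i x) →
    (∀ y : L, ∃ i x, φ i x = y) →
    (∀ i x, φ i x = 1 → ∃ j, ∃ h : i ≤ j, f i j h x = 1) →
    (∀ i, P (G i)) → P L

section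

variable {V : Type} {G : Type} [Group G] [MulAction G V]

/-- the union of two invariant complexes -/
def GCx.sup (A B : GCx G V) : GCx G V where
  toC :=
    { edge := fun a b => A.toC.edge a b ∨ B.toC.edge a b
      tri := fun a b c => A.toC.tri a b c ∨ B.toC.tri a b c
      edge_symm := fun a b h => h.imp (A.toC.edge_symm _ _) (B.toC.edge_symm _ _)
      edge_irrefl := fun a h => h.elim (A.toC.edge_irrefl a) (B.toC.edge_irrefl a)
      tri_rot := fun a b c h => h.imp (A.toC.tri_rot _ _ _) (B.toC.tri_rot _ _ _)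
      tri_swap := fun a b c h => h.imp (A.toC.tri_swap _ _ _) (B.toC.tri_swap _ _ _)
      tri_edge := fun a b c h => h.imp (A.toC.tri_edge _ _ _) (B.toC.tri_edge _ _ _) }
  inv := ⟨fun g a b h => h.imp (A.inv.edge _ _ _) (B.inv.edge _ _ _),
    fun g a b c h => h.imp (A.inv.tri _ _ _ _) (B.inv.tri _ _ _ _)⟩

theorem GCx.le_sup_left (A B : GCx G V) : A.toC ≤ (A.sup B).toC :=
  ⟨fun _ _ h => Or.inl h, fun _ _ _ h => Or.inl h⟩

theorem GCx.le_sup_right (A B : GCx G V) : B.toC ≤ (A.sup B).toC :=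
  ⟨fun _ _ h => Or.inr h, fun _ _ _ h => Or.inr h⟩

/-- the triangles in the orbit of a list -/
def GTri (G : Type) {V : Type} [Group G] [MulAction G V] (X : Complex2 V)
    (T : List (V × V × V)) (a b c : V) : Prop :=
  X.tri a b c ∧ ∃ g : G, ∃ t ∈ T, ({a, b, c} : Set V) = {g • t.1, g • t.2.1, g • t.2.2}

/-- the invariant complex generated by lists of edges and triangles -/
def gen (X : Complex2 V) (hX : Inv G X) (E : List (V × V)) (T : List (V × V × V)) : GCx G V where
  toC :=
    { edge := fun a b => X.edge a b ∧ ((∃ g : G, ∃ e ∈ E, ({a, b} : Set V) = {g • e.1, g • e.2}) ∨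
        ∃ c, GTri G X T a b c)
      tri := GTri G X T
      edge_symm := by
        rintro a b ⟨h, h1 | ⟨c, h1⟩⟩
        · exact ⟨X.edge_symm _ _ h, Or.inl (by rwa [Set.pair_comm])⟩
        · refine ⟨X.edge_symm _ _ h, Or.inr ⟨c, X.tri_swap _ _ _ h1.1, ?_⟩⟩
          rw [Set.insert_comm]
          exact h1.2
      edge_irrefl := fun a h => X.edge_irrefl a h.1
      tri_rot := by
        rintro a b c ⟨h, h1⟩
        refine ⟨X.tri_rot _ _ _ h, ?_⟩
        have : ({b, c, a} : Set V) = {a, b, c} := by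
          ext x
          simp only [Set.mem_insert_iff, Set.mem_singleton_iff]
          tauto
        rw [this]
        exact h1
      tri_swap := by
        rintro a b c ⟨h, h1⟩
        refine ⟨X.tri_swap _ _ _ h, ?_⟩
        rw [Set.insert_comm]
        exact h1
      tri_edge := fun a b c h => ⟨X.tri_edge _ _ _ h.1, Or.inr ⟨c, h⟩⟩ }
  inv := by
    have htri : ∀ (g : G) (a b c : V), GTri G X T a b c → GTri G X T (g • a) (g • b) (g • c) := by
      rintro g a b c ⟨h, k, t, ht, h1⟩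
      refine ⟨hX.tri _ _ _ _ h, g * k, t, ht, ?_⟩
      have := congrArg (fun s : Set V => (g • ·) '' s) h1
      simpa [Set.image_insert_eq, mul_smul] using this
    refine ⟨?_, htri⟩
    rintro g a b ⟨h, h1 | ⟨c, h1⟩⟩
    · obtain ⟨k, e, he, h1⟩ := h1
      refine ⟨hX.edge _ _ _ h, Or.inl ⟨g * k, e, he, ?_⟩⟩
      have := congrArg (fun s : Set V => (g • ·) '' s) h1
      simpa [Set.image_insert_eq, mul_smul] using this
    · exact ⟨hX.edge _ _ _ h, Or.inr ⟨g • c, htri _ _ _ _ h1⟩⟩

theorem gen_le (X : Complex2 V) (hX : Inv G X) (E : List (V × V)) (T : List (V × V × V)) :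
    (gen X hX E T).toC ≤ X := ⟨fun _ _ h => h.1, fun _ _ _ h => h.1⟩

/-- finitely many orbits of edges and triangles -/
def FinOrb (A : GCx G V) : Prop :=
  ∃ F : Set V, F.Finite ∧ (∀ a b, A.toC.edge a b → ∃ g : G, g • a ∈ F ∧ g • b ∈ F) ∧
    ∀ a b c, A.toC.tri a b c → ∃ g : G, g • a ∈ F ∧ g • b ∈ F ∧ g • c ∈ F

theorem FinOrb.sup {A B : GCx G V} (hA : FinOrb A) (hB : FinOrb B) : FinOrb (A.sup B) := by
  obtain ⟨F, hF, h1, h2⟩ := hA
  obtain ⟨F', hF', h1', h2'⟩ := hB
  refine ⟨F ∪ F', hF.union hF', ?_, ?_⟩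
  · rintro a b (h | h)
    · obtain ⟨g, h3, h4⟩ := h1 _ _ h
      exact ⟨g, Or.inl h3, Or.inl h4⟩
    · obtain ⟨g, h3, h4⟩ := h1' _ _ h
      exact ⟨g, Or.inr h3, Or.inr h4⟩
  · rintro a b c (h | h)
    · obtain ⟨g, h3, h4, h5⟩ := h2 _ _ _ h
      exact ⟨g, Or.inl h3, Or.inl h4, Or.inl h5⟩
    · obtain ⟨g, h3, h4, h5⟩ := h2' _ _ _ h
      exact ⟨g, Or.inr h3, Or.inr h4, Or.inr h5⟩

theorem finOrb_gen (X : Complex2 V) (hX : Inv G X) (E : List (V × V)) (T : List (V × V × V)) :
    FinOrb (gen X hX E T) := by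
  classical
  let F : Set V := {v | ∃ e ∈ E, v = e.1 ∨ v = e.2} ∪
    {v | ∃ t ∈ T, v = t.1 ∨ v = t.2.1 ∨ v = t.2.2}
  have hF : F.Finite := by
    apply Set.Finite.union
    · have : {v | ∃ e ∈ E, v = e.1 ∨ v = e.2} = ⋃ e ∈ {e | e ∈ E}, ({e.1, e.2} : Set V) := by
        ext v
        simp
      rw [this]
      exact (List.finite_toSet E).biUnion fun e _ => Set.toFinite _
    · have : {v | ∃ t ∈ T, v = t.1 ∨ v = t.2.1 ∨ v = t.2.2} =
          ⋃ t ∈ {t | t ∈ T}, ({t.1, t.2.1, t.2.2} : Set V) := by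
        ext v
        simp
      rw [this]
      exact (List.finite_toSet T).biUnion fun e _ => Set.toFinite _
  have key : ∀ (g : G) (a : V) (s : Set V), a ∈ (g • ·) '' s → g⁻¹ • a ∈ s := by
    rintro g a s ⟨b, hb, rfl⟩
    simpa using hb
  have htri : ∀ a b c, GTri G X T a b c → ∃ g : G, g • a ∈ F ∧ g • b ∈ F ∧ g • c ∈ F := by
    rintro a b c ⟨_, g, t, ht, h1⟩
    have h2 : ∀ v ∈ ({a, b, c} : Set V), g⁻¹ • v ∈ F := by
      intro v hv
      rw [h1] at hv
      have : ({g • t.1, g • t.2.1, g • t.2.2} : Set V) = (g • ·) '' {t.1, t.2.1, t.2.2} := by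
        simp [Set.image_insert_eq]
      rw [this] at hv
      have h3 := key g v _ hv
      refine Or.inr ⟨t, ht, ?_⟩
      simpa using h3
    exact ⟨g⁻¹, h2 a (by simp), h2 b (by simp), h2 c (by simp)⟩
  refine ⟨F, hF, ?_, htri⟩
  rintro a b ⟨_, h1 | ⟨c, h1⟩⟩
  · obtain ⟨g, e, he, h1⟩ := h1
    have h2 : ∀ v ∈ ({a, b} : Set V), g⁻¹ • v ∈ F := by
      intro v hv
      rw [h1] at hv
      have : ({g • e.1, g • e.2} : Set V) = (g • ·) '' {e.1, e.2} := by
        simp [Set.image_insert_eq]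
      rw [this] at hv
      have h3 := key g v _ hv
      refine Or.inl ⟨e, he, ?_⟩
      simpa using h3
    exact ⟨g⁻¹, h2 a (by simp), h2 b (by simp)⟩
  · obtain ⟨g, h2, h3, _⟩ := htri a b c h1
    exact ⟨g, h2, h3⟩

/-- the preorder of the approximating complexes -/
structure Idx (G : Type) {V : Type} [Group G] [MulAction G V] (X : Complex2 V) (x : V) where
  A : GCx G V
  le : A.toC ≤ X
  fin : FinOrb A
  reach : ∀ g : G, ∃ l, IsPath A.toC x l ∧ endp x l = g • x

instance (X : Complex2 V) (x : V) : Preorder (Idx G X x) where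
  le i j := i.A.toC ≤ j.A.toC
  le_refl i := le_refl i.A.toC
  le_trans i j k h1 h2 := le_trans (α := Complex2 V) h1 h2

/-- adding an invariant subcomplex with finitely many orbits -/
def Idx.add {X : Complex2 V} {x : V} (i : Idx G X x) (B : GCx G V) (hB : B.toC ≤ X)
    (hB' : FinOrb B) : Idx G X x where
  A := i.A.sup B
  le := ⟨fun a b h => h.elim (i.le.1 a b) (hB.1 a b), fun a b c h => h.elim (i.le.2 a b c) (hB.2 a b c)⟩
  fin := i.fin.sup hB'
  reach g := by
    obtain ⟨l, h1, h2⟩ := i.reach g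
    exact ⟨l, h1.mono (GCx.le_sup_left _ _), h2⟩

instance (X : Complex2 V) (x : V) : IsDirectedOrder (Idx G X x) where
  directed i j := ⟨i.add j.A j.le j.fin, GCx.le_sup_left _ _, GCx.le_sup_right _ _⟩

/-- the transition maps -/
noncomputable def trans {A B : GCx G V} (h : A.toC ≤ B.toC) (x : V) : Lifts A x →* Lifts B x :=
  (liftCon A x).lift
    { toFun := fun p => Lifts.mk ⟨p.g, p.l, p.path.mono h, p.fin⟩
      map_one' := rfl
      map_mul' := fun _ _ => rfl }
    (fun p q h' => Lifts.mk_eq.2 ⟨h'.1, h'.2.mono h⟩)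

theorem trans_mk {A B : GCx G V} (h : A.toC ≤ B.toC) (x : V) (p : PreLift A x) :
    trans h x (Lifts.mk p) = Lifts.mk ⟨p.g, p.l, p.path.mono h, p.fin⟩ := rfl

theorem exists_idx [hG : Group.FG G] (X : Complex2 V) (hX : Inv G X) (hs : SimplyConnected X)
    (x : V) : Nonempty (Idx G X x) := by
  obtain ⟨S, hS⟩ := hG.out
  have hpath : ∀ g : G, ∃ l, IsPath X x l ∧ endp x l = g • x := fun g => hs.2.1 x (g • x)
  choose l hl hl' using hpath
  have hsup : ∀ g : G, ∃ E : List (V × V), (∀ e ∈ E, X.edge e.1 e.2) ∧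
      ∀ B : Complex2 V, (∀ e ∈ E, B.edge e.1 e.2) → IsPath B x (l g) :=
    fun g => IsPath.finite_support (hl g)
  choose E hE hE' using hsup
  let EE : List (V × V) := S.toList.flatMap E
  let A := gen X hX EE []
  refine ⟨⟨A, gen_le _ _ _ _, finOrb_gen _ _ _ _, ?_⟩⟩
  let H : Subgroup G :=
    { carrier := {g | ∃ m, IsPath A.toC x m ∧ endp x m = g • x}
      one_mem' := ⟨[], trivial, by simp⟩
      mul_mem' := by
        rintro g h ⟨m, hm, hm'⟩ ⟨n, hn, hn'⟩
        have p := (⟨g, m, hm, hm'⟩ : PreLift A x) * ⟨h, n, hn, hn'⟩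
        exact ⟨_, ((⟨g, m, hm, hm'⟩ : PreLift A x) * ⟨h, n, hn, hn'⟩).path,
          ((⟨g, m, hm, hm'⟩ : PreLift A x) * ⟨h, n, hn, hn'⟩).fin⟩
      inv_mem' := by
        rintro g ⟨m, hm, hm'⟩
        exact ⟨_, (Lifts.preInv (⟨g, m, hm, hm'⟩ : PreLift A x)).path,
          (Lifts.preInv (⟨g, m, hm, hm'⟩ : PreLift A x)).fin⟩ }
  have hH : H = ⊤ := by
    rw [eq_top_iff, ← hS, Subgroup.closure_le]
    intro g hg
    refine ⟨l g, hE' g _ ?_, hl' g⟩
    intro e he
    refine ⟨hE g e he, Or.inl ⟨1, e, ?_, by simp⟩⟩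
    exact List.mem_flatMap.2 ⟨g, Finset.mem_toList.2 hg, he⟩
  intro g
  have : g ∈ H := hH ▸ Subgroup.mem_top g
  exact this

theorem closed_fg {P : ∀ (G : Type) [Group G], Prop} (hP : Closed2 P) [Group.FG G]
    (X : Complex2 V) (len : V → V → ℝ) (hs : SimplyConnected X) (hn : NPC X len)
    (ha : ActsProperly G X len) : P G := by
  obtain ⟨x⟩ := hs.1
  have := exists_idx (G := G) X ha.inv hs x
  refine hP.colim (Idx G X x) (fun i => Lifts i.A x) (fun i j h => trans h x) G
    (fun i => Lifts.proj i.A x) ?_ ?_ ?_ ?_ ?_ ?_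
  · intro i y
    induction y using Lifts.ind with
    | h p => rfl
  · intro i j k hij hjk y
    induction y using Lifts.ind with
    | h p => rfl
  · intro i j hij y
    induction y using Lifts.ind with
    | h p => rfl
  · intro g
    obtain ⟨i⟩ := this
    obtain ⟨l, hl, hl'⟩ := i.reach g
    exact ⟨i, Lifts.mk ⟨g, l, hl, hl'⟩, rfl⟩
  · intro i y hy
    induction y using Lifts.ind with
    | h p =>
      have hg : p.g = 1 := hy
      have h1 : endp x p.l = x := by rw [p.fin, hg, one_smul]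
      have h2 := hs.2.2 x p.l (p.path.mono i.le) h1
      obtain ⟨E, T, hE, hT, h3⟩ := h2.finite_support
      refine ⟨i.add (gen X ha.inv E T) (gen_le _ _ _ _) (finOrb_gen _ _ _ _),
        GCx.le_sup_left _ _, ?_⟩
      refine Lifts.mk_eq.2 ⟨hg, h3 _ ?_ ?_⟩
      · intro e he
        exact Or.inr ⟨hE e he, Or.inl ⟨1, e, he, by simp⟩⟩
      · intro t ht
        exact Or.inr ⟨hT t ht, 1, t, ht, by simp⟩
  · intro i
    refine hP.cat (Lifts i.A x) (Cov i.A.toC x) (Cov.complex i.A.toC x) (covLen len)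
      (Cov.simplyConnected _ _) (hn.cover i.le x) (ha.cover i.A i.le x) ?_
    obtain ⟨F, hF, h1, h2⟩ := i.fin
    exact cocompact_cover i.A x F hF i.reach h1 h2

theorem ActsProperly.sub {X : Complex2 V} {len : V → V → ℝ} (h : ActsProperly G X len)
    (H : Subgroup G) : ActsProperly H X len where
  edge g := h.edge g
  tri g := h.tri g
  len g := h.len g
  stab v := by
    refine Set.Finite.of_injOn (f := Subtype.val) (t := (MulAction.stabilizer G v : Set G))
      ?_ (Subtype.val_injective.injOn) (h.stab v)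
    intro g hg
    exact hg

/-- a class of groups which is closed under directed colimits and contains the groups acting
properly and cocompactly on 2-dimensional CAT(0) complexes contains all groups acting properly -/
theorem closed_proper {P : ∀ (G : Type) [Group G], Prop} (hP : Closed2 P)
    (X : Complex2 V) (len : V → V → ℝ) (hs : SimplyConnected X) (hn : NPC X len)
    (ha : ActsProperly G X len) : P G := by
  classical
  refine hP.colim (Finset G) (fun S => Subgroup.closure (S : Set G))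
    (fun S T h => Subgroup.inclusion (Subgroup.closure_mono (Finset.coe_subset.2 h))) G
    (fun S => (Subgroup.closure (S : Set G)).subtype) ?_ ?_ ?_ ?_ ?_ ?_
  · intro S x
    rfl
  · intro S T U h1 h2 x
    rfl
  · intro S T h x
    rfl
  · intro g
    exact ⟨{g}, ⟨g, Subgroup.subset_closure (by simp)⟩, rfl⟩
  · intro S x hx
    refine ⟨S, le_rfl, ?_⟩
    have : x = 1 := Subtype.ext hx
    rw [this, map_one]
  · intro S
    have : Group.FG (Subgroup.closure (S : Set G)) := by
      rw [Group.fg_iff_subgroup_fg]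
      exact ⟨S, rfl⟩
    exact closed_fg hP X len hs hn (ha.sub _)

end

end Pool.Agent.helper34.FJ2
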