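import Pool.Agent.helper34.FJ2.Lifts

set_option autoImplicit false

/-!
# Piecewise Euclidean 2-complexes of non-positive curvature and group actions
-/

namespace Pool.Agent.helper34.FJ2

open Finset in
/-- the angle at `a` of the Euclidean triangle `a b c` with the side lengths given by `len` -/
noncomputable def corner {V : Type} (len : V → V → ℝ) (a b c : V) : ℝ :=
  Real.arccos ((len a b ^ 2 + len a c ^ 2 - len b c ^ 2) / (2 * len a b * len a c))

/-- `len` gives the edges positive lengths such that every triangle of `X` is realised by a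
non-degenerate Euclidean triangle, and the link condition holds: every simple closed edge path in
the link of a vertex `a` has total angle at least `2π`. -/
structure NPC {V : Type} (X : Complex2 V) (len : V → V → ℝ) : Prop where
  symm : ∀ a b, len a b = len b a
  pos : ∀ a b, X.edge a b → 0 < len a b
  triangle : ∀ a b c, X.tri a b c → len a c < len a b + len b c
  link : ∀ (a : V) (n : ℕ) (b : ℕ → V), 3 ≤ n → b n = b 0 →
    (∀ i j, i < n → j < n → b i = b j → i = j) → (∀ i, i < n → X.tri a (b i) (b (i + 1))) →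
    2 * Real.pi ≤ ∑ i ∈ Finset.range n, corner len a (b i) (b (i + 1))

/-- the group `G` acts on `X` by automorphisms preserving the edge lengths, and the stabilisers of
the vertices are finite -/
structure ActsProperly (G : Type) {V : Type} [Group G] [MulAction G V] (X : Complex2 V)
    (len : V → V → ℝ) : Prop where
  edge : ∀ (g : G) (a b : V), X.edge a b → X.edge (g • a) (g • b)
  tri : ∀ (g : G) (a b c : V), X.tri a b c → X.tri (g • a) (g • b) (g • c)
  len : ∀ (g : G) (a b : V), X.edge a b → len (g • a) (g • b) = len a b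
  stab : ∀ v : V, (MulAction.stabilizer G v : Set G).Finite

/-- some finite set of vertices meets every vertex, edge and triangle up to the action: every
vertex, edge, triangle has a translate whose vertices lie in the finite set -/
def Cocompact (G : Type) {V : Type} [Group G] [MulAction G V] (X : Complex2 V) : Prop :=
  ∃ F : Set V, F.Finite ∧ (∀ v, ∃ g : G, g • v ∈ F) ∧
    (∀ a b, X.edge a b → ∃ g : G, g • a ∈ F ∧ g • b ∈ F) ∧
    ∀ a b c, X.tri a b c → ∃ g : G, g • a ∈ F ∧ g • b ∈ F ∧ g • c ∈ F

section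

variable {V : Type} {G : Type} [Group G] [MulAction G V]

theorem ActsProperly.inv {X : Complex2 V} {len : V → V → ℝ} (h : ActsProperly G X len) :
    Inv G X := ⟨h.edge, h.tri⟩

/-- the metric of the covering -/
def covLen {A : Complex2 V} {x : V} (len : V → V → ℝ) (q r : Cov A x) : ℝ := len q.ep r.ep

theorem NPC.cover {X A : Complex2 V} {len : V → V → ℝ} (h : NPC X len) (hA : A ≤ X) (x : V) :
    NPC (Cov.complex A x) (covLen len) where
  symm a b := h.symm _ _
  pos a b hab := h.pos _ _ (hA.1 _ _ hab.1)
  triangle a b c hab := h.triangle _ _ _ (hA.2 _ _ _ hab.1)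
  link a n b hn hb hinj htri := by
    refine h.link a.ep n (fun i => (b i).ep) hn (by rw [hb]) ?_ ?_
    · intro i j hi hj hij
      exact hinj i j hi hj (Cov.ext_ep ((Cov.complex A x).tri_edge _ _ _ (htri i hi))
        ((Cov.complex A x).tri_edge _ _ _ (htri j hj)) hij)
    · intro i hi
      exact hA.2 _ _ _ (htri i hi).1

theorem ActsProperly.cover {X : Complex2 V} {len : V → V → ℝ} (h : ActsProperly G X len)
    (A : GCx G V) (hA : A.toC ≤ X) (x : V) :
    ActsProperly (Lifts A x) (Cov.complex A.toC x) (covLen len) where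
  edge := Lifts.inv_cover.edge
  tri := Lifts.inv_cover.tri
  len g a b hab := by
    change len (g • a).ep (g • b).ep = len a.ep b.ep
    rw [Lifts.ep_smul, Lifts.ep_smul]
    exact h.len _ _ _ (hA.1 _ _ hab.1)
  stab := Lifts.stab_finite h.stab

theorem cocompact_cover (A : GCx G V) (x : V) (F : Set V) (hF : F.Finite)
    (hx : ∀ g : G, ∃ l, IsPath A.toC x l ∧ endp x l = g • x)
    (he : ∀ a b, A.toC.edge a b → ∃ g : G, g • a ∈ F ∧ g • b ∈ F)
    (ht : ∀ a b c, A.toC.tri a b c → ∃ g : G, g • a ∈ F ∧ g • b ∈ F ∧ g • c ∈ F) :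
    Cocompact (Lifts A x) (Cov.complex A.toC x) := by
  classical
  let c : V → Cov A.toC x := fun v =>
    if h : ∃ q : Cov A.toC x, q.ep = v then h.choose else Cov.base A.toC x
  have hc : ∀ q : Cov A.toC x, ∀ v, q.ep = v → (c v).ep = v := by
    intro q v hq
    have h : ∃ q : Cov A.toC x, q.ep = v := ⟨q, hq⟩
    change (if h : ∃ q : Cov A.toC x, q.ep = v then h.choose else Cov.base A.toC x).ep = v
    rw [dif_pos h]
    exact h.choose_spec
  let F1 : Set (Cov A.toC x) := c '' (insert x F)
  let F2 : Set (Cov A.toC x) := ⋃ v ∈ insert x F, ⋃ w ∈ F, {q | q.1 = (c v).1.app [w]}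
  have hxF : (insert x F).Finite := hF.insert x
  have hF1 : F1.Finite := hxF.image c
  have hF2 : F2.Finite := by
    refine hxF.biUnion fun v _ => hF.biUnion fun w _ => ?_
    apply Set.Subsingleton.finite
    intro q hq r hr
    exact Subtype.ext (hq.trans hr.symm)
  -- every point has translates over all translates of its end point
  have hreach : ∀ (q : Cov A.toC x) (g : G), ∃ r : Cov A.toC x, r.ep = g • q.ep := by
    rintro ⟨q, hq⟩ g
    induction q using PClass.ind with
    | h l =>
      obtain ⟨m, hm, hm'⟩ := hx g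
      refine ⟨⟨PClass.mk A.toC x (m ++ l.map (g • ·)), ?_⟩, ?_⟩
      · rw [PClass.valid_mk, isPath_append]
        refine ⟨hm, ?_⟩
        rw [hm']
        exact A.inv.isPath _ hq
      · change endp x (m ++ l.map (g • ·)) = g • endp x l
        rw [endp_append, hm', endp_map]
  have hmove : ∀ (q : Cov A.toC x) (g : G) (v : V), g • q.ep = v →
      ∃ p : Lifts A x, Lifts.proj A x p = g ∧ p • q = c v := by
    intro q g v hv
    obtain ⟨r, hr⟩ := hreach q g
    have h1 : (c v).ep = v := hc r v (hr.trans hv)
    exact Lifts.exists_smul q (c v) g (h1.trans hv.symm)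
  have hsec : ∀ (p : Lifts A x) (g : G) (q r : Cov A.toC x) (v : V), Lifts.proj A x p = g →
      p • q = c v → r.1 = q.1.app [r.ep] → v ∈ insert x F → g • r.ep ∈ F → p • r ∈ F2 := by
    intro p g q r v hp hpq hqr hv hr
    simp only [F2, Set.mem_iUnion]
    refine ⟨v, hv, g • r.ep, hr, ?_⟩
    change (p • r).1 = (c v).1.app [g • r.ep]
    rw [Lifts.smul_app p q [r.ep] r hqr, hpq, hp]
    rfl
  refine ⟨F1 ∪ F2, hF1.union hF2, ?_, ?_, ?_⟩
  · intro q
    -- the end point is the base vertex or lies on an edge
    have h1 : ∃ g : G, g • q.ep ∈ insert x F := by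
      obtain ⟨q, hq⟩ := q
      induction q using PClass.ind with
      | h l =>
        change ∃ g : G, g • endp x l ∈ insert x F
        rcases List.eq_nil_or_concat l with rfl | ⟨l, b, rfl⟩
        · exact ⟨1, by simp⟩
        · have h2 : IsPath A.toC x (l.concat b) := hq
          rw [List.concat_eq_append, isPath_append] at h2
          obtain ⟨g, _, hg⟩ := he _ _ h2.2.1
          refine ⟨g, Or.inr ?_⟩
          rw [List.concat_eq_append, endp_append]
          exact hg
    obtain ⟨g, hg⟩ := h1
    obtain ⟨p, _, hp⟩ := hmove q g _ rfl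
    exact ⟨p, Or.inl ⟨_, hg, hp.symm⟩⟩
  · intro q r hqr
    obtain ⟨g, hg, hg'⟩ := he _ _ hqr.1
    obtain ⟨p, hp, hpq⟩ := hmove q g _ rfl
    exact ⟨p, Or.inl ⟨_, Or.inr hg, hpq.symm⟩,
      Or.inr (hsec p g q r _ hp hpq hqr.2 (Or.inr hg) hg')⟩
  · intro q r s hqr
    obtain ⟨g, hg, hg', hg''⟩ := ht _ _ _ hqr.1
    obtain ⟨p, hp, hpq⟩ := hmove q g _ rfl
    exact ⟨p, Or.inl ⟨_, Or.inr hg, hpq.symm⟩,
      Or.inr (hsec p g q r _ hp hpq hqr.2.1 (Or.inr hg) hg'),
      Or.inr (hsec p g q s _ hp hpq hqr.2.2 (Or.inr hg) hg'')⟩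

end

end Pool.Agent.helper34.FJ2
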